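import Pool.Agent.QPI.StmtsD

set_option autoImplicit false

/-!
Squad QPI, row D_HTL: length of `hat X p`.
-/

namespace Pool.Agent.QPI.H46

open MvPolynomial Pool.Agent.QPI

variable {N₁ N₂ : ℕ}

/-- the weight of a monomial -/
def wg (d : Fin N₁ ⊕ Fin N₂ →₀ ℕ) : ℕ := ∑ i, wt i * d i

theorem prod_X (d : Fin N₁ ⊕ Fin N₂ →₀ ℕ) :
    ∏ i, (X i : MvPolynomial (Fin N₁ ⊕ Fin N₂) ℚ) ^ d i = monomial d 1 := by
  rw [monomial_eq, C_1, one_mul, Finsupp.prod_fintype]
  intro i
  rw [pow_zero]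

theorem hat_eq (p : MvPolynomial (Fin N₁ ⊕ Fin N₂) ℚ) :
    hat X p = ∑ d ∈ p.support, p.coeff d • (PowerSeries.C (monomial d (1 : ℚ)) *
      (PowerSeries.X : PowerSeries (MvPolynomial (Fin N₁ ⊕ Fin N₂) ℚ)) ^ wg d) := by
  unfold hat
  rw [aeval_def, eval₂_eq']
  apply Finset.sum_congr rfl
  intro d _
  rw [Algebra.smul_def]
  congr 1
  have h1 : ∀ i : Fin N₁ ⊕ Fin N₂, ((PowerSeries.X :
      PowerSeries (MvPolynomial (Fin N₁ ⊕ Fin N₂) ℚ)) ^ wt i *
        PowerSeries.C (X i : MvPolynomial (Fin N₁ ⊕ Fin N₂) ℚ)) ^ d i =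
      PowerSeries.X ^ (wt i * d i) *
        PowerSeries.C ((X i : MvPolynomial (Fin N₁ ⊕ Fin N₂) ℚ) ^ d i) := by
    intro i
    rw [mul_pow, ← pow_mul, map_pow]
  rw [Finset.prod_congr rfl fun i _ => h1 i, Finset.prod_mul_distrib, Finset.prod_pow_eq_pow_sum,
    ← map_prod, prod_X, mul_comm]
  rfl

theorem coeff_hat (p : MvPolynomial (Fin N₁ ⊕ Fin N₂) ℚ) (μ : ℕ) (β : Fin N₁ ⊕ Fin N₂ →₀ ℕ) :
    (PowerSeries.coeff μ (hat X p)).coeff β = if wg β = μ then p.coeff β else 0 := by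
  classical
  have h1 : PowerSeries.coeff μ (hat X p) = ∑ d ∈ p.support,
      p.coeff d • (if wg d = μ then monomial d (1 : ℚ) else 0) := by
    rw [hat_eq, map_sum]
    apply Finset.sum_congr rfl
    intro d _
    rw [PowerSeries.coeff_smul, PowerSeries.coeff_C_mul, PowerSeries.coeff_X_pow]
    by_cases h : wg d = μ
    · rw [if_pos h, if_pos h.symm, mul_one]
    · rw [if_neg h, if_neg fun h' => h h'.symm, mul_zero]
  rw [h1, coeff_sum]
  have h2 : ∀ d ∈ p.support, coeff β (p.coeff d • (if wg d = μ then monomial d (1 : ℚ) else 0)) =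
      if d = β then (if wg β = μ then p.coeff β else 0) else 0 := by
    intro d _
    rw [coeff_smul]
    by_cases hd : d = β
    · subst hd
      by_cases h : wg d = μ
      · rw [if_pos h, if_pos rfl, if_pos h, coeff_monomial, if_pos rfl, smul_eq_mul, mul_one]
      · rw [if_neg h, if_pos rfl, if_neg h, coeff_zero, smul_zero]
    · rw [if_neg hd]
      by_cases h : wg d = μ
      · rw [if_pos h, coeff_monomial, if_neg hd, smul_zero]
      · rw [if_neg h, coeff_zero, smul_zero]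
  rw [Finset.sum_congr rfl h2, Finset.sum_ite_eq']
  by_cases hβ : β ∈ p.support
  · rw [if_pos hβ]
  · have h0 : p.coeff β = 0 := notMem_support_iff.1 hβ
    rw [if_neg hβ, h0, ite_self]

theorem d_htl : HtlStmt := by
  intro N₁ N₂ L p hp μ
  obtain ⟨h1, h2⟩ := hp
  rw [one_pow, mul_one]
  refine ⟨fun α => ?_, ?_⟩
  · rw [coeff_hat]
    split_ifs
    · exact h1 α
    · exact ⟨0, by simp⟩
  · refine le_trans ?_ h2
    have h3 : (PowerSeries.coeff μ (hat (X : _ → MvPolynomial (Fin N₁ ⊕ Fin N₂) ℚ) p)).support ⊆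
        p.support := by
      intro α hα
      rw [mem_support_iff, coeff_hat] at hα
      rw [mem_support_iff]
      intro h0
      rw [h0, ite_self] at hα
      exact hα rfl
    refine le_trans (Finset.sum_le_sum (g := fun α => |p.coeff α|) fun α _ => ?_)
      (Finset.sum_le_sum_of_subset_of_nonneg h3 fun _ _ _ => abs_nonneg _)
    rw [coeff_hat]
    split_ifs
    · exact le_rfl
    · rw [abs_zero]
      exact abs_nonneg _

end Pool.Agent.QPI.H46
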